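import Pool.Agent.Helper30_SkewP4.Sup

/-!
# EXT1: relations of the operators `psi`, `phi`, `sE` on the exterior algebra
-/

set_option autoImplicit false

namespace Pool.Agent.SkewP4.H33

open Pool.Agent.SkewP4

/-- the generators attached to vectors -/
noncomputable def io (m : Ix → ℂ) : E := CliffordAlgebra.ι (0 : QuadraticForm ℂ (Ix → ℂ)) m

theorem gen_eq (a : Ix) : gen a = io (Pi.single a 1) := rfl

theorem indE {P : E → Prop} (h1 : ∀ r : ℂ, P (algebraMap ℂ E r))
    (h2 : ∀ x y, P x → P y → P (x + y)) (h3 : ∀ x m, P x → P (io m * x)) : ∀ x, P x :=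
  CliffordAlgebra.left_induction (0 : QuadraticForm ℂ (Ix → ℂ)) h1 h2 h3

theorem psi_apply (a : Ix) (w : E) : psi a w = gen a * w := rfl

theorem phi_algebraMap (a : Ix) (r : ℂ) : phi a (algebraMap ℂ E r) = 0 :=
  CliffordAlgebra.contractLeft_algebraMap _ _ r

theorem phi_io (a : Ix) (m : Ix → ℂ) (w : E) : phi a (io m * w) = m a • w - io m * phi a w :=
  CliffordAlgebra.contractLeft_ι_mul _ m w

theorem phi_io' (a : Ix) (m : Ix → ℂ) : phi a (io m) = algebraMap ℂ E (m a) :=
  CliffordAlgebra.contractLeft_ι _ _ m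

theorem sE_io (m : Ix → ℂ) : sE (io m) = -io m := CliffordAlgebra.involute_ι m

theorem io_anti (m m' : Ix → ℂ) : io m * io m' = -(io m' * io m) :=
  eq_neg_of_add_eq_zero_left (ExteriorAlgebra.ι_add_mul_swap m m')

theorem io_mul (m : Ix → ℂ) (w : E) : io m * w = sE w * io m := by
  induction w using indE with
  | h1 r => rw [AlgHom.commutes, Algebra.commutes]
  | h2 x y hx hy => rw [mul_add, hx, hy, map_add, add_mul]
  | h3 x m' hx =>
    rw [map_mul, sE_io, ← mul_assoc, io_anti, neg_mul, mul_assoc, hx, neg_mul, neg_mul, mul_assoc]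

theorem sE_sE' (w : E) : sE (sE w) = w := CliffordAlgebra.involute_involute w

theorem io_mul' (m : Ix → ℂ) (w : E) : w * io m = io m * sE w := by
  rw [io_mul, sE_sE']

theorem sE_phi' (a : Ix) (w : E) : sE (phi a w) = -phi a (sE w) := by
  induction w using indE with
  | h1 r => rw [AlgHom.commutes, phi_algebraMap, map_zero, neg_zero]
  | h2 x y hx hy => rw [map_add, map_add, map_add, map_add, hx, hy, neg_add]
  | h3 x m hx =>
    rw [phi_io, map_sub, map_smul, map_mul, map_mul, sE_io, hx, neg_mul, neg_mul, mul_neg, map_neg,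
      phi_io]
    simp

theorem mul_of_even (w : E) (hw : sE w = w) (w' : E) : w * w' = w' * w := by
  induction w' using indE with
  | h1 r => exact (Algebra.commutes r w).symm
  | h2 x y hx hy => rw [mul_add, hx, hy, add_mul]
  | h3 x m hx => rw [← mul_assoc, io_mul', hw, mul_assoc, hx, mul_assoc]

theorem mul_of_odd (w : E) (hw : sE w = -w) (w' : E) : w * w' = sE w' * w := by
  induction w' using indE with
  | h1 r => rw [AlgHom.commutes]; exact (Algebra.commutes r w).symm
  | h2 x y hx hy => rw [mul_add, hx, hy, map_add, add_mul]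
  | h3 x m hx =>
    rw [← mul_assoc, io_mul', hw, mul_neg, neg_mul, mul_assoc, hx, map_mul, sE_io, neg_mul,
      neg_mul, mul_assoc]

theorem ext1 : Ext1Stmt where
  psi_psi a b w := by
    rw [psi_apply, psi_apply, psi_apply, psi_apply, ← mul_assoc, gen_eq, gen_eq, io_anti, neg_mul,
      mul_assoc]
  phi_phi a b w := CliffordAlgebra.contractLeft_comm _ _ w
  phi_psi a b w := by
    rw [psi_apply, psi_apply, gen_eq, phi_io, sub_add_cancel, Pi.single_apply]
    split_ifs
    · rw [one_smul]
    · rw [zero_smul]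
  phi_one a := CliffordAlgebra.contractLeft_one _ _
  phi_mul a w w' := by
    induction w using indE with
    | h1 r =>
      rw [← Algebra.smul_def, map_smul, phi_algebraMap, zero_mul, zero_add, AlgHom.commutes,
        Algebra.smul_def]
    | h2 x y hx hy =>
      rw [add_mul, map_add, hx, hy, map_add, add_mul, map_add, add_mul]
      abel
    | h3 x m hx =>
      rw [mul_assoc, phi_io, hx, phi_io, map_mul, sE_io, sub_mul, smul_mul_assoc, mul_add,
        mul_assoc, neg_mul, neg_mul, mul_assoc]
      abel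
  gen_mul a w := io_mul _ w
  sE_sE w := sE_sE' w
  sE_psi a w := by
    rw [psi_apply, psi_apply, map_mul, gen_eq, sE_io, neg_mul]
  sE_phi a w := sE_phi' a w
  even_comm w w' h := mul_of_even w h w'
  odd_comm w w' h h' := by
    rw [mul_of_odd w h w', h', neg_mul]

end Pool.Agent.SkewP4.H33
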