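import Pool.Agent.Helper30_SkewP4.Sup

/-!
# EXT2: bidegrees in the exterior algebra
-/

set_option autoImplicit false

namespace Pool.Agent.SkewP4.H33

open Pool.Agent.SkewP4

theorem gx_mem (j : Fin 5) : gen (Sum.inl j) ∈ Vx := Submodule.subset_span ⟨j, rfl⟩

theorem gy_mem (j : Fin 5) : gen (Sum.inr j) ∈ Vy := Submodule.subset_span ⟨j, rfl⟩

theorem gen_anti (a b : Ix) : gen a * gen b = -(gen b * gen a) :=
  eq_neg_of_add_eq_zero_left (ExteriorAlgebra.ι_add_mul_swap _ _)

theorem Vy_mul_Vx_le : Vy * Vx ≤ Vx * Vy := by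
  rw [Vy, Vx, Submodule.span_mul_span, Submodule.span_le]
  rintro _ ⟨_, ⟨i, rfl⟩, _, ⟨j, rfl⟩, rfl⟩
  show gen (Sum.inr i) * gen (Sum.inl j) ∈ _
  rw [gen_anti]
  exact Submodule.neg_mem _ (Submodule.mul_mem_mul (gx_mem j) (gy_mem i))

theorem Vx_mul_Vy_le : Vx * Vy ≤ Vy * Vx := by
  rw [Vy, Vx, Submodule.span_mul_span, Submodule.span_le]
  rintro _ ⟨_, ⟨i, rfl⟩, _, ⟨j, rfl⟩, rfl⟩
  show gen (Sum.inl i) * gen (Sum.inr j) ∈ _
  rw [gen_anti]
  exact Submodule.neg_mem _ (Submodule.mul_mem_mul (gy_mem j) (gx_mem i))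

theorem V_comm : Commute Vx Vy := le_antisymm Vx_mul_Vy_le Vy_mul_Vx_le

theorem Epq_mul (p q p' q' : ℕ) : Epq p q * Epq p' q' = Epq (p + p') (q + q') := by
  unfold Epq
  rw [pow_add, pow_add, mul_assoc, ← mul_assoc (Vy ^ q), ← (V_comm.pow_pow p' q).eq]
  simp only [mul_assoc]

/-- a linear condition on powers of a span -/
theorem pow_ind (V : Submodule ℂ E) (P : ℕ → Submodule ℂ E) (h0 : (1 : E) ∈ P 0)
    (h1 : ∀ p, ∀ v ∈ V, ∀ w ∈ V ^ p, w ∈ P p → v * w ∈ P (p + 1)) :
    ∀ p, ∀ w ∈ V ^ p, w ∈ P p := by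
  intro p
  induction p with
  | zero =>
    intro w hw
    rw [pow_zero, Submodule.mem_one] at hw
    obtain ⟨c, rfl⟩ := hw
    rw [Algebra.algebraMap_eq_smul_one]
    exact Submodule.smul_mem _ _ h0
  | succ p ih =>
    intro w hw
    rw [pow_succ'] at hw
    refine Submodule.mul_induction_on hw ?_ ?_
    · intro v hv w hw
      exact h1 p v hv w hw (ih w hw)
    · intro x y hx hy
      exact Submodule.add_mem _ hx hy

theorem mul_ind (A B P : Submodule ℂ E) (h : ∀ a ∈ A, ∀ b ∈ B, a * b ∈ P) :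
    ∀ w ∈ A * B, w ∈ P := fun _ hw => (Submodule.mul_le.2 h) hw

section
variable (h : Ext1Stmt)
include h

theorem sE_gen (a : Ix) : sE (gen a) = -gen a := by
  have e : psi a 1 = gen a := mul_one _
  have h1 := h.sE_psi a 1
  have h2 : sE (1 : E) = 1 := map_one sE
  rw [h2, e] at h1
  exact h1

theorem phi_gen (a b : Ix) : phi a (gen b) = if a = b then 1 else 0 := by
  have := h.phi_psi a b 1
  have e : psi b 1 = gen b := mul_one _
  rw [e, h.phi_one, map_zero, add_zero] at this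
  exact this

theorem sE_Vx (v : E) (hv : v ∈ Vx) : sE v = -v := by
  refine Submodule.span_induction ?_ ?_ ?_ ?_ hv
  · rintro _ ⟨j, rfl⟩; exact sE_gen h _
  · rw [map_zero, neg_zero]
  · intro x y _ _ hx hy; rw [map_add, hx, hy, neg_add]
  · intro c x _ hx; rw [map_smul, hx, smul_neg]

theorem sE_Vy (v : E) (hv : v ∈ Vy) : sE v = -v := by
  refine Submodule.span_induction ?_ ?_ ?_ ?_ hv
  · rintro _ ⟨j, rfl⟩; exact sE_gen h _
  · rw [map_zero, neg_zero]
  · intro x y _ _ hx hy; rw [map_add, hx, hy, neg_add]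
  · intro c x _ hx; rw [map_smul, hx, smul_neg]

omit h in
/-- eigenspaces of the parity -/
theorem sE_pow (V : Submodule ℂ E) (hV : ∀ v ∈ V, sE v = -v) (p : ℕ) (w : E) (hw : w ∈ V ^ p) :
    sE w = (-1 : ℂ) ^ p • w := by
  have key := pow_ind V (fun p => LinearMap.ker (sE.toLinearMap - (-1 : ℂ) ^ p • LinearMap.id))
    (by simp [LinearMap.mem_ker]) (by
      intro p v hv w hw hw'
      rw [LinearMap.mem_ker, LinearMap.sub_apply, sub_eq_zero] at hw' ⊢
      have e : sE w = (-1 : ℂ) ^ p • w := hw'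
      show sE (v * w) = (-1 : ℂ) ^ (p + 1) • (v * w)
      rw [map_mul, hV v hv, e, pow_succ, mul_smul_comm, neg_mul, mul_neg_one, neg_smul, smul_neg])
    p w hw
  rw [LinearMap.mem_ker, LinearMap.sub_apply, sub_eq_zero] at key
  exact key

theorem sE_pow_x (p : ℕ) (w : E) (hw : w ∈ Vx ^ p) : sE w = (-1 : ℂ) ^ p • w :=
  sE_pow Vx (sE_Vx h) p w hw

theorem sE_pow_y (p : ℕ) (w : E) (hw : w ∈ Vy ^ p) : sE w = (-1 : ℂ) ^ p • w :=
  sE_pow Vy (sE_Vy h) p w hw

theorem phi_V_scalar (V : Submodule ℂ E) (c : Fin 5 → Ix)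
    (hV : V = Submodule.span ℂ (Set.range fun j => gen (c j))) (a : Ix) (v : E) (hv : v ∈ V) :
    ∃ z : ℂ, phi a v = algebraMap ℂ E z := by
  subst hV
  refine Submodule.span_induction ?_ ?_ ?_ ?_ hv
  · rintro _ ⟨j, rfl⟩
    refine ⟨if a = c j then 1 else 0, ?_⟩
    show phi a (gen (c j)) = _
    rw [phi_gen h]
    split_ifs
    · rw [map_one]
    · rw [map_zero]
  · exact ⟨0, by rw [map_zero, map_zero]⟩
  · rintro x y _ _ ⟨z, hz⟩ ⟨z', hz'⟩
    exact ⟨z + z', by rw [map_add, map_add, hz, hz']⟩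
  · rintro k x _ ⟨z, hz⟩
    exact ⟨k * z, by rw [map_smul, hz, map_mul, Algebra.smul_def]⟩

theorem phi_V_zero (V : Submodule ℂ E) (c : Fin 5 → Ix)
    (hV : V = Submodule.span ℂ (Set.range fun j => gen (c j))) (a : Ix) (ha : ∀ j, a ≠ c j)
    (v : E) (hv : v ∈ V) : phi a v = 0 := by
  subst hV
  refine Submodule.span_induction ?_ ?_ ?_ ?_ hv
  · rintro _ ⟨j, rfl⟩
    show phi a (gen (c j)) = _
    rw [phi_gen h, if_neg (ha j)]
  · rw [map_zero]
  · intro x y _ _ hx hy; rw [map_add, hx, hy, add_zero]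
  · intro k x _ hx; rw [map_smul, hx, smul_zero]

theorem phi_pow_zero (V : Submodule ℂ E) (c : Fin 5 → Ix)
    (hV : V = Submodule.span ℂ (Set.range fun j => gen (c j))) (a : Ix) (ha : ∀ j, a ≠ c j)
    (p : ℕ) (w : E) (hw : w ∈ V ^ p) : phi a w = 0 := by
  have := pow_ind V (fun _ => LinearMap.ker (phi a)) (by rw [LinearMap.mem_ker, h.phi_one]) (by
    intro p v hv w hw hw'
    rw [LinearMap.mem_ker] at hw' ⊢
    rw [h.phi_mul, phi_V_zero h V c hV a ha v hv, hw', zero_mul, mul_zero, add_zero]) p w hw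
  exact this

theorem phi_pow_mem (V : Submodule ℂ E) (c : Fin 5 → Ix)
    (hV : V = Submodule.span ℂ (Set.range fun j => gen (c j))) (hs : ∀ v ∈ V, sE v = -v) (a : Ix)
    (p : ℕ) (w : E) (hw : w ∈ V ^ p) : phi a w ∈ V ^ (p - 1) ∧ (p = 0 → phi a w = 0) := by
  let P : ℕ → Submodule ℂ E := fun p =>
    match p with
    | 0 => LinearMap.ker (phi a)
    | p + 1 => (V ^ p).comap (phi a)
  have key := pow_ind V P (by
    show (1 : E) ∈ LinearMap.ker (phi a)
    rw [LinearMap.mem_ker, h.phi_one]) (by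
    intro p v hv w hw hw'
    show phi a (v * w) ∈ V ^ p
    obtain ⟨z, hz⟩ := phi_V_scalar h V c hV a v hv
    rw [h.phi_mul, hz, hs v hv, ← Algebra.smul_def, neg_mul]
    refine Submodule.add_mem _ (Submodule.smul_mem _ _ hw) (Submodule.neg_mem _ ?_)
    cases p with
    | zero =>
      have : phi a w = 0 := hw'
      rw [this, mul_zero]
      exact Submodule.zero_mem _
    | succ p =>
      have : phi a w ∈ V ^ p := hw'
      rw [pow_succ']
      exact Submodule.mul_mem_mul hv this) p w hw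
  cases p with
  | zero =>
    have h1 : phi a w = 0 := key
    exact ⟨by rw [h1]; exact Submodule.zero_mem _, fun _ => h1⟩
  | succ p =>
    exact ⟨key, fun e => absurd e (Nat.succ_ne_zero p)⟩

theorem num_mul (c : Fin 5 → Ix) (w w' : E) :
    ∑ j : Fin 5, psi (c j) (phi (c j) (w * w')) =
      (∑ j : Fin 5, psi (c j) (phi (c j) w)) * w' + w * ∑ j : Fin 5, psi (c j) (phi (c j) w') := by
  rw [Finset.sum_mul, Finset.mul_sum, ← Finset.sum_add_distrib]
  refine Finset.sum_congr rfl fun j _ => ?_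
  show gen (c j) * phi (c j) (w * w') = gen (c j) * phi (c j) w * w' + w * (gen (c j) * phi (c j) w')
  have e := h.gen_mul (c j) (sE w)
  rw [h.sE_sE] at e
  rw [h.phi_mul, mul_add, ← mul_assoc, ← mul_assoc, e, mul_assoc w]

theorem num_V (V : Submodule ℂ E) (c : Fin 5 → Ix) (hc : Function.Injective c)
    (hV : V = Submodule.span ℂ (Set.range fun j => gen (c j))) (v : E) (hv : v ∈ V) :
    ∑ j : Fin 5, psi (c j) (phi (c j) v) = v := by
  subst hV
  refine Submodule.span_induction ?_ ?_ ?_ ?_ hv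
  · rintro _ ⟨i, rfl⟩
    show ∑ j : Fin 5, psi (c j) (phi (c j) (gen (c i))) = gen (c i)
    rw [Finset.sum_eq_single i]
    · rw [phi_gen h, if_pos rfl]; exact mul_one _
    · intro j _ hj
      rw [phi_gen h, if_neg (fun e => hj (hc e)), map_zero]
    · intro hi; exact absurd (Finset.mem_univ i) hi
  · simp
  · intro x y _ _ hx hy
    simp only [map_add, Finset.sum_add_distrib, hx, hy]
  · intro k x _ hx
    simp only [map_smul, ← Finset.smul_sum, hx]

theorem num_pow (V : Submodule ℂ E) (c : Fin 5 → Ix) (hc : Function.Injective c)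
    (hV : V = Submodule.span ℂ (Set.range fun j => gen (c j))) (p : ℕ) (w : E) (hw : w ∈ V ^ p) :
    ∑ j : Fin 5, psi (c j) (phi (c j) w) = (p : ℂ) • w := by
  have key := pow_ind V (fun p => LinearMap.ker ((∑ j : Fin 5, (psi (c j)) ∘ₗ (phi (c j)))
      - (p : ℂ) • LinearMap.id)) (by
      simp [LinearMap.mem_ker, h.phi_one]) (by
      intro p v hv w hw hw'
      rw [LinearMap.mem_ker, LinearMap.sub_apply, sub_eq_zero, LinearMap.sum_apply] at hw' ⊢
      have e : ∑ j : Fin 5, psi (c j) (phi (c j) w) = (p : ℂ) • w := hw'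
      show ∑ j : Fin 5, psi (c j) (phi (c j) (v * w)) = ((p + 1 : ℕ) : ℂ) • (v * w)
      rw [num_mul h, num_V h V c hc hV v hv, e, mul_smul_comm, Nat.cast_succ, add_smul, one_smul,
        add_comm]) p w hw
  rw [LinearMap.mem_ker, LinearMap.sub_apply, sub_eq_zero, LinearMap.sum_apply] at key
  exact key

theorem num_pow_zero (V : Submodule ℂ E) (c c' : Fin 5 → Ix) (hc : ∀ i j, c i ≠ c' j)
    (hV : V = Submodule.span ℂ (Set.range fun j => gen (c' j))) (p : ℕ) (w : E) (hw : w ∈ V ^ p) :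
    ∑ j : Fin 5, psi (c j) (phi (c j) w) = 0 := by
  refine Finset.sum_eq_zero fun j _ => ?_
  rw [phi_pow_zero h V c' hV (c j) (hc j) p w hw, map_zero]

theorem ext2 : Ext2Stmt where
  one_mem := by
    unfold Epq
    rw [pow_zero, pow_zero, one_mul]
    exact Submodule.one_le.1 le_rfl
  mem_zero w hw := by
    unfold Epq at hw
    rw [pow_zero, pow_zero, one_mul, Submodule.mem_one] at hw
    obtain ⟨c, hc⟩ := hw
    exact ⟨c, hc.symm⟩
  mul_mem p q p' q' w w' hw hw' := by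
    rw [← Epq_mul]
    exact Submodule.mul_mem_mul hw hw'
  sE_mem p q w hw := by
    have := mul_ind (Vx ^ p) (Vy ^ q)
      (LinearMap.ker (sE.toLinearMap - (-1 : ℂ) ^ (p + q) • LinearMap.id)) (by
        intro a ha b hb
        rw [LinearMap.mem_ker, LinearMap.sub_apply, sub_eq_zero]
        show sE (a * b) = (-1 : ℂ) ^ (p + q) • (a * b)
        rw [map_mul, sE_pow_x h p a ha, sE_pow_y h q b hb, smul_mul_assoc, mul_smul_comm, smul_smul,
          pow_add]) w hw
    rw [LinearMap.mem_ker, LinearMap.sub_apply, sub_eq_zero] at this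
    exact this
  psi_x p q j w hw := by
    show gen (Sum.inl j) * w ∈ Vx ^ (p + 1) * Vy ^ q
    rw [pow_succ', mul_assoc]
    exact Submodule.mul_mem_mul (gx_mem j) hw
  psi_y p q j w hw := by
    show gen (Sum.inr j) * w ∈ Vx ^ p * Vy ^ (q + 1)
    rw [pow_succ', ← mul_assoc, (V_comm.pow_left p).eq, mul_assoc]
    exact Submodule.mul_mem_mul (gy_mem j) hw
  phi_x p q j w hw := by
    refine mul_ind (Vx ^ (p + 1)) (Vy ^ q) ((Epq p q).comap (phi (Sum.inl j))) ?_ w hw
    intro a ha b hb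
    show phi (Sum.inl j) (a * b) ∈ Epq p q
    rw [h.phi_mul, phi_pow_zero h Vy Sum.inr rfl (Sum.inl j) (fun i => by simp) q b hb, mul_zero,
      add_zero]
    exact Submodule.mul_mem_mul
      (phi_pow_mem h Vx Sum.inl rfl (sE_Vx h) (Sum.inl j) (p + 1) a ha).1 hb
  phi_y p q j w hw := by
    refine mul_ind (Vx ^ p) (Vy ^ (q + 1)) ((Epq p q).comap (phi (Sum.inr j))) ?_ w hw
    intro a ha b hb
    show phi (Sum.inr j) (a * b) ∈ Epq p q
    rw [h.phi_mul, phi_pow_zero h Vx Sum.inl rfl (Sum.inr j) (fun i => by simp) p a ha, zero_mul,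
      zero_add, sE_pow_x h p a ha, smul_mul_assoc]
    exact Submodule.smul_mem _ _ (Submodule.mul_mem_mul ha
      (phi_pow_mem h Vy Sum.inr rfl (sE_Vy h) (Sum.inr j) (q + 1) b hb).1)
  phi_x_zero q j w hw := by
    unfold Epq at hw
    rw [pow_zero, one_mul] at hw
    exact phi_pow_zero h Vy Sum.inr rfl (Sum.inl j) (fun i => by simp) q w hw
  phi_y_zero p j w hw := by
    unfold Epq at hw
    rw [pow_zero, mul_one] at hw
    exact phi_pow_zero h Vx Sum.inl rfl (Sum.inr j) (fun i => by simp) p w hw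
  num_x p q w hw := by
    have := mul_ind (Vx ^ p) (Vy ^ q) (LinearMap.ker ((∑ j : Fin 5, (psi (Sum.inl j)) ∘ₗ
      (phi (Sum.inl j))) - (p : ℂ) • LinearMap.id)) (by
        intro a ha b hb
        rw [LinearMap.mem_ker, LinearMap.sub_apply, sub_eq_zero, LinearMap.sum_apply]
        show ∑ j : Fin 5, psi (Sum.inl j) (phi (Sum.inl j) (a * b)) = (p : ℂ) • (a * b)
        rw [num_mul h Sum.inl, num_pow h Vx Sum.inl Sum.inl_injective rfl p a ha,
          num_pow_zero h Vy Sum.inl Sum.inr (fun i j => by simp) rfl q b hb, mul_zero, add_zero,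
          smul_mul_assoc]) w hw
    rw [LinearMap.mem_ker, LinearMap.sub_apply, sub_eq_zero, LinearMap.sum_apply] at this
    exact this
  num_y p q w hw := by
    have := mul_ind (Vx ^ p) (Vy ^ q) (LinearMap.ker ((∑ j : Fin 5, (psi (Sum.inr j)) ∘ₗ
      (phi (Sum.inr j))) - (q : ℂ) • LinearMap.id)) (by
        intro a ha b hb
        rw [LinearMap.mem_ker, LinearMap.sub_apply, sub_eq_zero, LinearMap.sum_apply]
        show ∑ j : Fin 5, psi (Sum.inr j) (phi (Sum.inr j) (a * b)) = (q : ℂ) • (a * b)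
        rw [num_mul h Sum.inr, num_pow h Vy Sum.inr Sum.inr_injective rfl q b hb,
          num_pow_zero h Vx Sum.inr Sum.inl (fun i j => by simp) rfl p a ha, zero_mul, zero_add,
          mul_smul_comm]) w hw
    rw [LinearMap.mem_ker, LinearMap.sub_apply, sub_eq_zero, LinearMap.sum_apply] at this
    exact this

end

end Pool.Agent.SkewP4.H33
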